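import Mathlib
import Pool.Agent.TH118.MT.Defs

/-!
# Tensors on the second cohomology group of an abelian variety: alternation in pairs of variables
-/

set_option autoImplicit false

namespace Pool.Agent.V11280.H2

open Pool.Agent.H204R3.GP Pool.Agent.TH118.MT TensorProduct

section alt

variable {k V : Type*} [Field k] [AddCommGroup V] [Module k V] {m : ℕ}

/-- the form `φ` is alternating in the two variables of the `i`-th pair -/
def AltAt (i : Fin m) (φ : MultilinearMap k (fun _ : Fin m × Fin 2 => V) k) : Prop :=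
  ∀ v : Fin m × Fin 2 → V, v (i, 0) = v (i, 1) → φ v = 0

/-- the exchange of the variables of the `i`-th pair -/
def sw (i : Fin m) : Equiv.Perm (Fin m × Fin 2) := Equiv.swap (i, 0) (i, 1)

/-- the alternation in the `i`-th pair -/
noncomputable def alt (i : Fin m) (φ : MultilinearMap k (fun _ : Fin m × Fin 2 => V) k) :
    MultilinearMap k (fun _ : Fin m × Fin 2 => V) k :=
  (2⁻¹ : k) • (φ - φ.domDomCongr (sw i))

lemma alt_apply (i : Fin m) (φ : MultilinearMap k (fun _ : Fin m × Fin 2 => V) k)
    (v : Fin m × Fin 2 → V) : alt i φ v = 2⁻¹ * (φ v - φ fun l => v (sw i l)) := rfl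

/-- the alternation as a linear map -/
noncomputable def altL (i : Fin m) : MultilinearMap k (fun _ : Fin m × Fin 2 => V) k →ₗ[k]
    MultilinearMap k (fun _ : Fin m × Fin 2 => V) k where
  toFun := alt i
  map_add' φ ψ := by
    ext v
    simp only [alt_apply, add_apply]
    ring
  map_smul' a φ := by
    ext v
    simp only [alt_apply, smul_apply, smul_eq_mul, RingHom.id_apply]
    ring

lemma sw_zero (i : Fin m) : sw i (i, 0) = (i, 1) := Equiv.swap_apply_left _ _

lemma sw_one (i : Fin m) : sw i (i, 1) = (i, 0) := Equiv.swap_apply_right _ _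

lemma sw_ne {i j : Fin m} (h : j ≠ i) (e : Fin 2) : sw i (j, e) = (j, e) :=
  Equiv.swap_apply_of_ne_of_ne (fun h' => h (Prod.ext_iff.1 h').1)
    (fun h' => h (Prod.ext_iff.1 h').1)

lemma altAt_alt (i : Fin m) (φ : MultilinearMap k (fun _ : Fin m × Fin 2 => V) k) :
    AltAt i (alt i φ) := by
  intro v hv
  have h : (fun l => v (sw i l)) = v := by
    funext ⟨j, e⟩
    by_cases hj : j = i
    · subst hj
      fin_cases e
      · exact (congrArg v (sw_zero j)).trans hv.symm
      · exact (congrArg v (sw_one j)).trans hv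
    · exact congrArg v (sw_ne hj e)
  rw [alt_apply, h, sub_self, mul_zero]

lemma altAt_alt_of {i j : Fin m} (h : j ≠ i)
    {φ : MultilinearMap k (fun _ : Fin m × Fin 2 => V) k} (hφ : AltAt j φ) :
    AltAt j (alt i φ) := by
  intro v hv
  rw [alt_apply, hφ v hv, hφ (fun l => v (sw i l)) (by
    show v (sw i (j, 0)) = v (sw i (j, 1))
    rw [sw_ne h, sw_ne h, hv]), sub_self, mul_zero]

lemma alt_eq [CharZero k] {i : Fin m} {φ : MultilinearMap k (fun _ : Fin m × Fin 2 => V) k}
    (hφ : AltAt i φ) : alt i φ = φ := by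
  classical
  ext v
  have hne : ((i, 1) : Fin m × Fin 2) ≠ (i, 0) := fun h => by
    have := (Prod.ext_iff.1 h).2
    simp at this
  -- the bilinear form in the two variables
  set f : V → V → k := fun x y => φ (Function.update (Function.update v (i, 0) x) (i, 1) y) with hf
  have hadd2 : ∀ x y y', f x (y + y') = f x y + f x y' := fun x y y' => φ.map_update_add _ _ _ _
  have hadd1 : ∀ x x' y, f (x + x') y = f x y + f x' y := by
    intro x x' y
    have hc : ∀ z y, Function.update (Function.update v (i, 0) z) (i, 1) y =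
        Function.update (Function.update v (i, 1) y) (i, 0) z :=
      fun z y => Function.update_comm hne.symm z y v
    simp only [hf, hc]
    exact φ.map_update_add _ _ _ _
  have hself : ∀ x, f x x = 0 := by
    intro x
    apply hφ
    rw [Function.update_of_ne hne.symm, Function.update_self, Function.update_self]
  have hskew : ∀ x y, f x y = -f y x := by
    intro x y
    have h1 := hself (x + y)
    rw [hadd1, hadd2, hadd2, hself, hself] at h1
    linear_combination h1
  have h1 : φ v = f (v (i, 0)) (v (i, 1)) := by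
    simp only [hf]
    rw [Function.update_eq_self, Function.update_eq_self]
  have h2 : (φ fun l => v (sw i l)) = f (v (i, 1)) (v (i, 0)) := by
    simp only [hf]
    congr 1
    funext ⟨j, e⟩
    by_cases hj : j = i
    · subst hj
      fin_cases e
      · show v (sw j (j, 0)) = _
        rw [sw_zero]
        exact (by
          rw [Function.update_of_ne hne.symm, Function.update_self] :
          Function.update (Function.update v (j, 0) (v (j, 1))) (j, 1) (v (j, 0)) (j, 0) =
            v (j, 1)).symm
      · show v (sw j (j, 1)) = _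
        rw [sw_one]
        exact (by
          rw [Function.update_self] :
          Function.update (Function.update v (j, 0) (v (j, 1))) (j, 1) (v (j, 0)) (j, 1) =
            v (j, 0)).symm
    · rw [sw_ne hj, Function.update_of_ne (fun h => hj (Prod.ext_iff.1 h).1),
        Function.update_of_ne (fun h => hj (Prod.ext_iff.1 h).1)]
  rw [alt_apply, h1, h2, hskew (v (i, 1))]
  have h3 : (2 : k) ≠ 0 := two_ne_zero
  field_simp
  ring

end alt

section hodge

variable {k V : Type} [Field k] [CharZero k] [AddCommGroup V] [Module k V]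
  {W T : Type} [AddCommGroup W] [Module ℚ W] [AddCommGroup T] [Module ℂ T] {m : ℕ}

lemma hodge_alt {per : W →+ T} (i : Fin m)
    {ψ : MultilinearMap ℚ (fun _ : Fin m × Fin 2 => W) ℚ} (h : IsHodgeTensor per ψ) :
    IsHodgeTensor per (alt i ψ) := by
  obtain ⟨Ψ, h1, h2⟩ := h
  refine ⟨alt i Ψ, fun v => ?_, fun z hz u => ?_⟩
  · rw [alt_apply, alt_apply, h1]
    have h3 := h1 fun l => v (sw i l)
    rw [h3]
    push_cast
    ring
  · rw [alt_apply, alt_apply, h2 z hz]
    have h3 := h2 z hz fun l => u (sw i l)
    rw [h3]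

lemma compares_alt {comp : W →+ V} (i : Fin m)
    {φ : MultilinearMap k (fun _ : Fin m × Fin 2 => V) k}
    {ψ : MultilinearMap ℚ (fun _ : Fin m × Fin 2 => W) ℚ} (h : Compares comp φ ψ) :
    Compares comp (alt i φ) (alt i ψ) := by
  intro v
  rw [alt_apply, alt_apply, h v]
  have h3 := h fun l => v (sw i l)
  rw [h3]
  push_cast
  ring

/-- the forms `φ` which come from Hodge classes alternating in the pairs in `s` -/
def HodgeAlt (per : W →+ T) (comp : W →+ V) (m : ℕ) (s : Finset (Fin m)) :
    Set (MultilinearMap k (fun _ : Fin m × Fin 2 => V) k) :=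
  {φ | (∀ i ∈ s, AltAt i φ) ∧ ∃ ψ : MultilinearMap ℚ (fun _ : Fin m × Fin 2 => W) ℚ,
    IsHodgeTensor per ψ ∧ (∀ i ∈ s, AltAt i ψ) ∧ Compares comp φ ψ}

lemma mem_of_alt {per : W →+ T} {comp : W →+ V}
    {φ : MultilinearMap k (fun _ : Fin m × Fin 2 => V) k}
    (hφ : φ ∈ HodgeSpan (k := k) per comp m) (s : Finset (Fin m)) (hs : ∀ i ∈ s, AltAt i φ) :
    φ ∈ Submodule.span k (HodgeAlt (k := k) per comp m s) := by
  classical
  induction s using Finset.induction_on with
  | empty =>
    refine Submodule.span_mono ?_ hφ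
    rintro φ' ⟨ψ, h1, h2⟩
    exact ⟨by simp, ψ, h1, by simp, h2⟩
  | insert i s hi ih =>
    have h1 := ih fun j hj => hs j (Finset.mem_insert_of_mem hj)
    have h2 : altL i φ = φ := alt_eq (hs i (Finset.mem_insert_self _ _))
    rw [← h2]
    have h3 : altL i φ ∈ (Submodule.span k (HodgeAlt (k := k) per comp m s)).map (altL i) :=
      ⟨φ, h1, rfl⟩
    rw [Submodule.map_span] at h3
    refine Submodule.span_mono ?_ h3
    rintro _ ⟨φ', ⟨g1, ψ, g2, g3, g4⟩, rfl⟩
    refine ⟨fun j hj => ?_, alt i ψ, hodge_alt i g2, fun j hj => ?_, compares_alt i g4⟩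
    · rcases Finset.mem_insert.1 hj with h | h
      · exact h ▸ altAt_alt _ φ'
      · exact altAt_alt_of (ne_of_mem_of_not_mem h hi) (g1 j h)
    · rcases Finset.mem_insert.1 hj with h | h
      · exact h ▸ altAt_alt _ ψ
      · exact altAt_alt_of (ne_of_mem_of_not_mem h hi) (g3 j h)

end hodge

end Pool.Agent.V11280.H2
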